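import Pool.Agent.Work.MP_8db9c5_an.FG.Stmts

/-!
# Groups acting faithfully on finite sets
-/

set_option linter.unusedSectionVars false

open Topology Filter Set

namespace Pool.Agent.Work.MP_8db9c5_an.FG

/-- the isometry group of `E` is isomorphic to `{±1} × ∏_k G k`, where `G k` acts by permuting the
vectors `dl e (Bk (nn m) k + 2 + 2 i)`, `i < m k`, and the other vectors `dl e p` are fixed up to
the sign -/
def IsomGroupEqAct {E : Type*} [NormedAddCommGroup E] [NormedSpace ℝ E] (e : ℕ → E) (m : ℕ → ℕ)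
    (G : ℕ → Type*) [∀ k, Group (G k)] [∀ k, MulAction (G k) (Fin (m k))] : Prop :=
  ∃ Φ : ℤˣ × (∀ k, G k) ≃* (E ≃ₗᵢ[ℝ] E), ∀ (s : ℤˣ) (g : ∀ k, G k),
    (∀ k (i : Fin (m k)), Φ (s, g) (dl e (Bk (nn m) k + 2 + 2 * i)) =
      ((s : ℤ) : ℝ) • dl e (Bk (nn m) k + 2 + 2 * ((g k • i : Fin (m k)) : ℕ))) ∧
    ∀ p, (∀ k (i : Fin (m k)), p ≠ Bk (nn m) k + 2 + 2 * i) →
      Φ (s, g) (dl e p) = ((s : ℤ) : ℝ) • dl e p

/-- the norm of a finite sum `∑ a_m b_m` depends monotonically on the absolute values `|a_m|` -/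
def IsLatticeBasis {X : Type*} [NormedAddCommGroup X] [NormedSpace ℝ X]
    (b : UnconditionalSchauderBasis ℕ ℝ X) : Prop :=
  ∀ (a a' : ℕ → ℝ) (N : ℕ), (∀ m < N, |a m| ≤ |a' m|) →
    ‖∑ m ∈ Finset.range N, a m • b m‖ ≤ ‖∑ m ∈ Finset.range N, a' m • b m‖

/-- the norm of a finite sum `∑ a_m b_m` is equivalent to the `ℓ_2` norm of `a` -/
def IsEquivLTwo {X : Type*} [NormedAddCommGroup X] [NormedSpace ℝ X]
    (b : UnconditionalSchauderBasis ℕ ℝ X) : Prop :=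
  ∃ C : ℝ, ∀ (a : ℕ → ℝ) (N : ℕ), ‖∑ m ∈ Finset.range N, a m • b m‖ ^ 2 ≤
    ∑ m ∈ Finset.range N, a m ^ 2 ∧
    ∑ m ∈ Finset.range N, a m ^ 2 ≤ C * ‖∑ m ∈ Finset.range N, a m • b m‖ ^ 2

theorem isomGroupEqAct_of_H {E : Type*} [NormedAddCommGroup E] [NormedSpace ℝ E] {e : ℕ → E}
    {m : ℕ → ℕ} {G : ℕ → Type*} [∀ k, Group (G k)] [∀ k, MulAction (G k) (Fin (m k))]
    [∀ k, FaithfulSMul (G k) (Fin (m k))]
    (h : IsomGroupEqH e m fun k => (MulAction.toPermHom (G k) (Fin (m k))).range) :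
    IsomGroupEqAct e m G := by
  obtain ⟨Φ, hΦ⟩ := h
  have hinj : ∀ k, Function.Injective (MulAction.toPermHom (G k) (Fin (m k))) :=
    fun k => MulAction.toPerm_injective
  set φ : (∀ k, G k) ≃* (∀ k, (MulAction.toPermHom (G k) (Fin (m k))).range) :=
    MulEquiv.piCongrRight fun k => MonoidHom.ofInjective (hinj k) with hφ
  have hval : ∀ (g : ∀ k, G k) (k : ℕ) (i : Fin (m k)),
      ((φ g k : Equiv.Perm (Fin (m k))) i) = g k • i := fun g k i => rfl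
  refine ⟨((MulEquiv.refl ℤˣ).prodCongr φ).trans Φ, fun s g => ⟨fun k i => ?_, fun p hp => ?_⟩⟩
  · have h1 := (hΦ s (φ g)).1 k i
    rw [hval] at h1
    exact h1
  · exact (hΦ s (φ g)).2 p hp

end Pool.Agent.Work.MP_8db9c5_an.FG
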