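import Pool.Agent.Work.MP_8db9c5_an.FG.Stmts

/-!
# The permutations of the odd offsets
-/

namespace Pool.Agent.Work.MP_8db9c5_an.FG

namespace XLFT

variable {m : ℕ}

/-- the map of the odd offsets -/
def f (ρ : Equiv.Perm (Fin m)) (j : Fin (2 * m + 1)) : Fin (2 * m + 1) :=
  if h : (j : ℕ) % 2 = 1 then
    ⟨2 * ((ρ ⟨(j : ℕ) / 2, by have := j.2; omega⟩ : Fin m) : ℕ) + 1, by
      have := (ρ ⟨(j : ℕ) / 2, by have := j.2; omega⟩).2
      omega⟩
  else j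

theorem f_odd (ρ : Equiv.Perm (Fin m)) (i : Fin m) (j : Fin (2 * m + 1))
    (h : (j : ℕ) = 2 * i + 1) : ((f ρ j : Fin (2 * m + 1)) : ℕ) = 2 * ((ρ i : Fin m) : ℕ) + 1 := by
  have h1 : (j : ℕ) % 2 = 1 := by omega
  have h2 : (⟨(j : ℕ) / 2, by have := j.2; omega⟩ : Fin m) = i := Fin.ext (by simp only; omega)
  unfold f
  rw [dif_pos h1]
  simp only [h2]

theorem f_even (ρ : Equiv.Perm (Fin m)) (j : Fin (2 * m + 1)) (h : (j : ℕ) % 2 = 0) :
    f ρ j = j := by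
  unfold f
  rw [dif_neg (by omega)]

theorem cases' (j : Fin (2 * m + 1)) :
    (j : ℕ) % 2 = 0 ∨ ∃ i : Fin m, (j : ℕ) = 2 * i + 1 := by
  rcases Nat.mod_two_eq_zero_or_one (j : ℕ) with h | h
  · exact Or.inl h
  · have hj := j.2
    exact Or.inr ⟨⟨(j : ℕ) / 2, by omega⟩, by simp only; omega⟩

theorem f_mul (ρ ρ' : Equiv.Perm (Fin m)) (j : Fin (2 * m + 1)) :
    f (ρ * ρ') j = f ρ (f ρ' j) := by
  rcases cases' j with h | ⟨i, h⟩
  · rw [f_even _ _ h, f_even _ _ h, f_even _ _ h]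
  · apply Fin.ext
    rw [f_odd (ρ * ρ') i j h, f_odd ρ (ρ' i) (f ρ' j) (f_odd ρ' i j h)]
    rfl

theorem f_one (j : Fin (2 * m + 1)) : f 1 j = j := by
  rcases cases' j with h | ⟨i, h⟩
  · exact f_even _ _ h
  · apply Fin.ext
    rw [f_odd 1 i j h, h]
    rfl

/-- the permutation of the offsets -/
def pm (ρ : Equiv.Perm (Fin m)) : Equiv.Perm (Fin (2 * m + 1)) where
  toFun := f ρ
  invFun := f ρ⁻¹
  left_inv j := by rw [← f_mul, inv_mul_cancel, f_one]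
  right_inv j := by rw [← f_mul, mul_inv_cancel, f_one]

theorem wt_even (σ : Equiv.Perm (Fin m)) {j : ℕ} (h : j % 2 = 0) : wt m σ j = AA m - 1 - j := by
  unfold wt
  rw [if_pos h]

theorem wt_odd (σ : Equiv.Perm (Fin m)) {j : ℕ} (i : Fin m) (h : j = 2 * i + 1) :
    wt m σ j = -(AA m + 2 * ((σ i : Fin m) : ℕ) + 1) := by
  have hi := i.2
  have h2 : j / 2 < m := by omega
  have h3 : (⟨j / 2, h2⟩ : Fin m) = i := Fin.ext (by simp only; omega)
  unfold wt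
  rw [if_neg (by omega), dif_pos h2, h3]

end XLFT

open XLFT in
theorem pr_LFT : LFT := by
  intro m
  refine ⟨MonoidHom.mk' pm fun π π' => Equiv.ext fun j => f_mul π π' j, ?_, ?_, ?_, ?_, ?_⟩
  · intro ρ ρ' h
    ext i
    have hi := i.2
    have h1 : (f ρ ⟨2 * i + 1, by omega⟩ : Fin (2 * m + 1)) = f ρ' ⟨2 * i + 1, by omega⟩ :=
      DFunLike.congr_fun h (⟨2 * i + 1, by omega⟩ : Fin (2 * m + 1))
    have h2 := congrArg Fin.val h1
    rw [f_odd ρ i _ rfl, f_odd ρ' i _ rfl] at h2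
    omega
  · intro ρ i j h
    exact f_odd ρ i j h
  · intro ρ j h
    exact f_even ρ j h
  · intro ρ σ j
    change wt m σ ((f ρ j : Fin (2 * m + 1)) : ℕ) = wt m (σ * ρ) j
    rcases cases' j with h | ⟨i, h⟩
    · rw [f_even ρ j h, wt_even σ h, wt_even _ h]
    · rw [wt_odd σ (ρ i) (f_odd ρ i j h), wt_odd (σ * ρ) i h]
      rfl
  · intro σ i j h
    have hi : ((i : ℕ) : ℝ) ≤ 2 * m := by
      have := i.2
      exact_mod_cast (by omega : (i : ℕ) ≤ 2 * m)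
    have hj : ((j : ℕ) : ℝ) ≤ 2 * m := by
      have := j.2
      exact_mod_cast (by omega : (j : ℕ) ≤ 2 * m)
    have hA : (2 * m + 2 : ℝ) ≤ AA m := by
      unfold AA
      have h0 : (0 : ℝ) ≤ m := Nat.cast_nonneg m
      nlinarith
    rcases cases' i with h1 | ⟨i', h1⟩ <;> rcases cases' j with h2 | ⟨j', h2⟩
    · rw [wt_even σ h1, wt_even σ h2] at h
      have h3 : ((i : ℕ) : ℝ) = ((j : ℕ) : ℝ) := by linarith
      exact Fin.ext (by exact_mod_cast h3)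
    · rw [wt_even σ h1, wt_odd σ j' h2] at h
      have h4 : (0 : ℝ) ≤ ((σ j' : Fin m) : ℕ) := Nat.cast_nonneg _
      linarith
    · rw [wt_odd σ i' h1, wt_even σ h2] at h
      have h4 : (0 : ℝ) ≤ ((σ i' : Fin m) : ℕ) := Nat.cast_nonneg _
      linarith
    · rw [wt_odd σ i' h1, wt_odd σ j' h2] at h
      have h3 : (((σ i' : Fin m) : ℕ) : ℝ) = (((σ j' : Fin m) : ℕ) : ℝ) := by linarith
      have h4 : σ i' = σ j' := Fin.ext (by exact_mod_cast h3)
      have h5 : i' = j' := σ.injective h4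
      apply Fin.ext
      rw [h1, h2, h5]

end Pool.Agent.Work.MP_8db9c5_an.FG
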