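import Pool.Agent.Work.MP_8db9c5_an.FG.Stmts

/-!
# The permutations of the positions given by permutation groups
-/

namespace Pool.Agent.Work.MP_8db9c5_an.FG

namespace XPPH

/-- a position is the first one of its block or one of the others -/
theorem cases' (n : ℕ → ℕ) (m : ℕ) :
    (∃ k, m = Bk n k) ∨ ∃ (k : ℕ) (i : Fin (n k)), m = Bk n k + 1 + i := by
  rcases blk_cases n m with h | ⟨i, h⟩
  · exact Or.inl ⟨_, h⟩
  · exact Or.inr ⟨_, i, h⟩

/-- the product of the homomorphisms `Q k` restricted to the subgroups `H k` -/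
def L (m : ℕ → ℕ) (H : ∀ k, Subgroup (Equiv.Perm (Fin (m k))))
    (Q : ∀ k, Equiv.Perm (Fin (m k)) →* Equiv.Perm (Fin (nn m k))) :
    (∀ k, H k) →* (∀ k, Equiv.Perm (Fin (nn m k))) where
  toFun π k := Q k (π k)
  map_one' := by
    funext k
    exact map_one (Q k)
  map_mul' π π' := by
    funext k
    exact map_mul (Q k) _ _

end XPPH

open XPPH in
theorem pr_PPH (h : LFT) : PPH := by
  intro m H
  have h' : ∀ k, ∃ P : Equiv.Perm (Fin (m k)) →* Equiv.Perm (Fin (nn m k)),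
      Function.Injective P ∧
      (∀ (ρ : Equiv.Perm (Fin (m k))) (i : Fin (m k)) (j : Fin (nn m k)), (j : ℕ) = 2 * i + 1 →
        ((P ρ j : Fin (nn m k)) : ℕ) = 2 * ((ρ i : Fin (m k)) : ℕ) + 1) ∧
      (∀ (ρ : Equiv.Perm (Fin (m k))) (j : Fin (nn m k)), (j : ℕ) % 2 = 0 → P ρ j = j) ∧
      (∀ (ρ σ : Equiv.Perm (Fin (m k))) (j : Fin (nn m k)),
        wt (m k) σ ((P ρ j : Fin (nn m k)) : ℕ) = wt (m k) (σ * ρ) j) ∧
      ∀ (σ : Equiv.Perm (Fin (m k))) (i j : Fin (nn m k)),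
        wt (m k) σ i = wt (m k) σ j → i = j := fun k => h (m k)
  choose Q hQi hQo hQe hQw hQs using h'
  obtain ⟨P0, hB, hact, hinj, hsurj⟩ := PG.pr_PPG (nn m)
  have hoff : ∀ (θ : ∀ k, Equiv.Perm (Fin (nn m k))) (k : ℕ) (j : Fin (nn m k)),
      off (nn m) k (P0 θ) j = (θ k j : ℕ) := by
    intro θ k j
    unfold off
    rw [hact]
    omega
  refine ⟨P0.comp (L m H Q), ?_, ?_, ?_, ?_, ?_⟩
  · intro π π' hπ
    have h1 : L m H Q π = L m H Q π' := hinj hπ
    funext k
    exact Subtype.ext (hQi k (congrFun h1 k))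
  · intro π
    refine ⟨hB _, ?_⟩
    rintro k w ⟨hk, ρ, hρ, rfl⟩
    refine ⟨wn (m k) (ρ * (π k : Equiv.Perm (Fin (m k)))⁻¹),
      ⟨hk, _, (H k).mul_mem hρ ((H k).inv_mem (π k).2), rfl⟩, ?_⟩
    intro i hi
    have h1 : off (nn m) k ((P0.comp (L m H Q)) π) i =
        ((Q k (π k) ⟨i, hi⟩ : Fin (nn m k)) : ℕ) := hoff (L m H Q π) k ⟨i, hi⟩
    rw [h1]
    unfold wn
    rw [hQw, inv_mul_cancel_right]
  · intro π k i
    have hi := i.2
    have h1 := hact (L m H Q π) k ⟨2 * (i : ℕ) + 1, by unfold nn; omega⟩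
    have h2 := hQo k (π k) i ⟨2 * (i : ℕ) + 1, by unfold nn; omega⟩ rfl
    have h3 : ((L m H Q π k ⟨2 * (i : ℕ) + 1, by unfold nn; omega⟩ : Fin (nn m k)) : ℕ) =
      2 * (((π k : Equiv.Perm (Fin (m k))) i : Fin (m k)) : ℕ) + 1 := h2
    rw [h3] at h1
    have h4 : Bk (nn m) k + 2 + 2 * (i : ℕ) = Bk (nn m) k + 1 + (2 * (i : ℕ) + 1) := by omega
    show P0 (L m H Q π) (Bk (nn m) k + 2 + 2 * i) = _
    rw [h4]
    refine h1.trans ?_
    omega
  · intro π p hp
    rcases cases' (nn m) p with ⟨k, rfl⟩ | ⟨k, j, rfl⟩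
    · exact (hB (L m H Q π)).1 k
    · have h1 : (j : ℕ) % 2 = 0 := by
        by_contra hj
        have h2 := j.2
        unfold nn at h2
        refine hp k ⟨(j : ℕ) / 2, by omega⟩ ?_
        simp only
        omega
      have h2 := hact (L m H Q π) k j
      have h3 : L m H Q π k j = j := hQe k (π k) j h1
      rw [h3] at h2
      exact h2
  · intro ρ hρ hw
    obtain ⟨θ, rfl⟩ := hsurj ρ hρ
    have hex : ∀ k, ∃ π : H k, Q k π = θ k := by
      intro k
      rcases Nat.eq_zero_or_pos (m k) with h0 | h0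
      · refine ⟨1, ?_⟩
        have hs : Subsingleton (Fin (nn m k)) := by
          have h1 : nn m k = 1 := by unfold nn; omega
          rw [h1]
          infer_instance
        exact Equiv.ext fun j => Subsingleton.elim _ _
      · obtain ⟨σ, hσ, h1⟩ := hw k h0
        refine ⟨⟨σ⁻¹, (H k).inv_mem hσ⟩, ?_⟩
        refine Equiv.ext fun j => ?_
        apply hQs k σ
        have h2 := h1 j j.2
        rw [hoff] at h2
        rw [h2]
        have h3 := hQw k σ⁻¹ σ j
        rw [mul_inv_cancel] at h3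
        exact h3
    choose π hπ using hex
    refine ⟨π, ?_⟩
    show P0 (L m H Q π) = P0 θ
    congr 1
    funext k
    exact hπ k

end Pool.Agent.Work.MP_8db9c5_an.FG
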