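import Pool.Agent.Work.MP_8db9c5_an.FG.Stmts

/-!
# The seminorm given by the weights
-/

set_option linter.unusedSectionVars false

open Topology Filter Set

namespace Pool.Agent.Work.MP_8db9c5_an.FG

namespace XSPQ

variable {X : Type} [NormedAddCommGroup X] [NormedSpace ℝ X]

theorem coord_basis (b : UnconditionalSchauderBasis ℕ ℝ X) (j m : ℕ) :
    b.coord j (b m) = if j = m then 1 else 0 := by
  simp [b.ortho, Pi.single_apply]

/-- the coordinates of a finite sum -/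
theorem coord_sum (b : UnconditionalSchauderBasis ℕ ℝ X) (a : ℕ → ℝ) (N j : ℕ) :
    b.coord j (∑ m ∈ Finset.range N, a m • b m) = if j < N then a j else 0 := by
  have h : ∀ m ∈ Finset.range N, b.coord j (a m • b m) = if j = m then a m else 0 := by
    intro m _
    rw [map_smul, coord_basis, smul_eq_mul, mul_ite, mul_one, mul_zero]
  rw [map_sum, Finset.sum_congr rfl h, Finset.sum_ite_eq]
  simp only [Finset.mem_range]

/-- the coordinate functionals have norm at most one -/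
theorem coord_le (b : UnconditionalSchauderBasis ℕ ℝ X) {n : ℕ → ℕ} (hb : BlockNorm b n) (j : ℕ)
    (x : X) : |b.coord j x| ≤ ‖x‖ := by
  have h1 : Tendsto (fun N => ∑ m ∈ Finset.range N, b.coord m x • b m) atTop (𝓝 x) :=
    (b.expansion x).tendsto_sum_nat
  refine ge_of_tendsto h1.norm ?_
  filter_upwards [eventually_gt_atTop j] with N hN
  exact (PG.pr_NLO X b n hb (fun m => b.coord m x) N).1 j hN

/-- the value at `x` of the weights `w ∈ F k` -/
noncomputable def g (b : UnconditionalSchauderBasis ℕ ℝ X) (n : ℕ → ℕ) (F : ℕ → Set (ℕ → ℝ))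
    (p : {p : ℕ × (ℕ → ℝ) // p.2 ∈ F p.1}) (x : X) : ℝ :=
  ∑ i ∈ Finset.range (n p.1.1), |ps p.1.2 i| * |b.coord (Bk n p.1.1 + 1 + i) x|

variable (b : UnconditionalSchauderBasis ℕ ℝ X) (n : ℕ → ℕ) (F : ℕ → Set (ℕ → ℝ))

theorem g_nonneg (p : {p : ℕ × (ℕ → ℝ) // p.2 ∈ F p.1}) (x : X) : 0 ≤ g b n F p x :=
  Finset.sum_nonneg fun _ _ => mul_nonneg (abs_nonneg _) (abs_nonneg _)

theorem g_add (p : {p : ℕ × (ℕ → ℝ) // p.2 ∈ F p.1}) (x y : X) :
    g b n F p (x + y) ≤ g b n F p x + g b n F p y := by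
  unfold g
  rw [← Finset.sum_add_distrib]
  refine Finset.sum_le_sum fun i _ => ?_
  rw [map_add, ← mul_add]
  exact mul_le_mul_of_nonneg_left (abs_add_le _ _) (abs_nonneg _)

theorem g_smul (p : {p : ℕ × (ℕ → ℝ) // p.2 ∈ F p.1}) (c : ℝ) (x : X) :
    g b n F p (c • x) = |c| * g b n F p x := by
  unfold g
  rw [Finset.mul_sum]
  refine Finset.sum_congr rfl fun i _ => ?_
  rw [map_smul, smul_eq_mul, abs_mul]
  ring

theorem g_le (h : ALT) (hb : BlockNorm b n) (hF : AltF n F)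
    (p : {p : ℕ × (ℕ → ℝ) // p.2 ∈ F p.1}) (x : X) : g b n F p x ≤ 2 * ‖x‖ := by
  have h1 := (h (n p.1.1) p.1.2 (hF p.1.1 p.1.2 p.2)).2.1
  calc g b n F p x ≤ ∑ i ∈ Finset.range (n p.1.1), |ps p.1.2 i| * ‖x‖ :=
        Finset.sum_le_sum fun i _ =>
          mul_le_mul_of_nonneg_left (coord_le b hb _ x) (abs_nonneg _)
    _ = (∑ i ∈ Finset.range (n p.1.1), |ps p.1.2 i|) * ‖x‖ := by rw [Finset.sum_mul]
    _ ≤ 2 * ‖x‖ := mul_le_mul_of_nonneg_right h1 (norm_nonneg _)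

theorem g_bdd (h : ALT) (hb : BlockNorm b n) (hF : AltF n F) (x : X) :
    BddAbove (Set.range fun p => g b n F p x) := by
  refine ⟨2 * ‖x‖, ?_⟩
  rintro _ ⟨p, rfl⟩
  exact g_le b n F h hb hF p x

/-- the seminorm -/
noncomputable def qS (h : ALT) (hb : BlockNorm b n) (hF : AltF n F) : Seminorm ℝ X :=
  Seminorm.of (fun x => ⨆ p, g b n F p x)
    (fun x y => Real.iSup_le (fun p => (g_add b n F p x y).trans
        (add_le_add (le_ciSup (g_bdd b n F h hb hF x) p) (le_ciSup (g_bdd b n F h hb hF y) p)))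
      (add_nonneg (Real.iSup_nonneg fun p => g_nonneg b n F p x)
        (Real.iSup_nonneg fun p => g_nonneg b n F p y)))
    (fun c x => by
      have h1 : (fun p => g b n F p (c • x)) = fun p => |c| * g b n F p x :=
        funext fun p => g_smul b n F p c x
      rw [h1, Real.norm_eq_abs, Real.mul_iSup_of_nonneg (abs_nonneg c)])

theorem qS_apply (h : ALT) (hb : BlockNorm b n) (hF : AltF n F) (x : X) :
    qS b n F h hb hF x = ⨆ p, g b n F p x := rfl

theorem qS_le_iff (h : ALT) (hb : BlockNorm b n) (hF : AltF n F) (x : X) {C : ℝ} (hC : 0 ≤ C) :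
    qS b n F h hb hF x ≤ C ↔ ∀ p, g b n F p x ≤ C := by
  rw [qS_apply]
  exact ⟨fun h1 p => (le_ciSup (g_bdd b n F h hb hF x) p).trans h1, fun h1 => Real.iSup_le h1 hC⟩

theorem g_sum_lt (a : ℕ → ℝ) {N : ℕ} (p : {p : ℕ × (ℕ → ℝ) // p.2 ∈ F p.1}) (hp : p.1.1 < N) :
    g b n F p (∑ m ∈ Finset.range (Bk n N), a m • b m) =
      ∑ i ∈ Finset.range (n p.1.1), |ps p.1.2 i| * |a (Bk n p.1.1 + 1 + i)| := by
  unfold g
  refine Finset.sum_congr rfl fun i hi => ?_
  have h1 : Bk n (p.1.1 + 1) ≤ Bk n N := (Bk_strictMono n).monotone hp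
  rw [Bk_succ] at h1
  have h2 := Finset.mem_range.1 hi
  rw [coord_sum, if_pos (by omega)]

theorem g_sum_ge (a : ℕ → ℝ) {N : ℕ} (p : {p : ℕ × (ℕ → ℝ) // p.2 ∈ F p.1}) (hp : N ≤ p.1.1) :
    g b n F p (∑ m ∈ Finset.range (Bk n N), a m • b m) = 0 := by
  unfold g
  refine Finset.sum_eq_zero fun i _ => ?_
  have h1 : Bk n N ≤ Bk n p.1.1 := (Bk_strictMono n).monotone hp
  rw [coord_sum, if_neg (by omega), abs_zero, mul_zero]

end XSPQ

open XSPQ in
theorem pr_SPQ (h : ALT) : SPQ := by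
  intro X0 _ _ _ b0 n F hb hF
  refine ⟨qS b0 n F h hb hF, fun x => ?_, fun a N C hC => ?_⟩
  · exact (qS_le_iff b0 n F h hb hF x (mul_nonneg zero_le_two (norm_nonneg x))).2
      fun p => g_le b0 n F h hb hF p x
  · rw [qS_le_iff b0 n F h hb hF _ hC]
    constructor
    · intro h1 k hk w hw
      have h2 := h1 ⟨(k, w), hw⟩
      rwa [g_sum_lt b0 n F a ⟨(k, w), hw⟩ hk] at h2
    · rintro h1 p
      rcases lt_or_ge p.1.1 N with hp | hp
      · rw [g_sum_lt b0 n F a p hp]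
        exact h1 p.1.1 hp p.1.2 p.2
      · rw [g_sum_ge b0 n F a p hp]
        exact hC

end Pool.Agent.Work.MP_8db9c5_an.FG
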