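import Pool.Agent.Work.MP_8db9c5_an.Bd.B04
import Pool.Agent.Work.MP_8db9c5_an.Bd.B05
import Pool.Agent.Work.MP_8db9c5_an.FG.I_SPQ
import Pool.Agent.Work.MP_8db9c5_an.FG.I_LFT
import Pool.Agent.Work.MP_8db9c5_an.FG.I_PPH
import Pool.Agent.Work.MP_8db9c5_an.FG.Act

/-!
# Products of permutation groups: assembly
-/

universe u v

namespace Pool.Agent.Work.MP_8db9c5_an.FG

theorem all_SPX : SPX := pr_SPX pr_RN (pr_SPQ pr_ALT)
theorem all_FUP : FUP.{u} := pr_FUP pr_ALT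
theorem all_FSM : FSM.{u} := pr_FSM all_FUP pr_FLO
theorem all_FLA : FLA.{u, v} := pr_FLA pr_FLO
theorem all_FLB : FLB.{u, v} := pr_FLB pr_FLO pr_ABL
theorem all_FLU : FLU.{u, v} := pr_FLU pr_KEY pr_ABL
theorem all_FEP : FEP.{u, v} := pr_FEP (pr_FNP all_FLA all_FLU all_FSM all_FLB pr_WIN)
theorem all_FEX : FEX.{u, v} :=
  pr_FEX all_FSM (pr_FTL all_FLA) (pr_FTU all_FLU all_FSM pr_ALT) (pr_FOR all_FLA all_FSM)
theorem all_TST : TST.{u, v} :=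
  pr_TST all_FLB all_FLU pr_PAIR pr_BDS (pr_UPB pr_ALT) pr_WTA
theorem all_FGR : FGR.{u, v} := pr_FGR pr_WTA all_FEP all_FEX all_TST (pr_PPH pr_LFT)

end Pool.Agent.Work.MP_8db9c5_an.FG
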