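import Pool.Agent.Work.MP_8db9c5_an.PG.All

/-!
# Products of permutation groups: definitions

The positions `0, 1, 2, …` are divided into blocks; the block `k` consists of the positions
`Bk n k, Bk n k + 1, …, Bk n k + n k` (see `PG/Defs.lean`).
-/

set_option linter.unusedSectionVars false

open Topology Filter Set

namespace Pool.Agent.Work.MP_8db9c5_an

variable {X : Type*} [NormedAddCommGroup X] [NormedSpace ℝ X]
variable {E : Type*} [NormedAddCommGroup E] [NormedSpace ℝ E]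

namespace FG

/-- the maximum of the three terms of `BlockNorm` -/
noncomputable def bmax (n : ℕ → ℕ) (a : ℕ → ℝ) (N : ℕ) : ℝ :=
  max (√(∑ k ∈ Finset.range N, a (Bk n k) ^ 2))
    (max ‖fun k : Fin N => mx n a k‖ (√(∑ k ∈ Finset.range N, mx n a k ^ 2) / 4))

/-- the partial sums of `w` -/
def ps (w : ℕ → ℝ) (i : ℕ) : ℝ := ∑ j ∈ Finset.range (i + 1), w j

/-- the partial sums of the weights `w 0, …, w (L - 1)` alternate in sign, the first one is
positive, and the sum of the absolute values of all but one of them is at most 1 -/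
structure Alt (L : ℕ) (w : ℕ → ℝ) : Prop where
  three : 3 ≤ L
  sgn : ∀ i < L, 0 < (-1) ^ i * ps w i
  small : ∀ j < L, ∑ i ∈ (Finset.range L).erase j, |ps w i| ≤ 1

/-- the norm of `∑ a_m x_m` is the maximum of `bmax` and of the numbers
`∑_{i < n k} |ps w i| |a (Bk n k + 1 + i)|`, `w ∈ F k` -/
def FNorm (b : UnconditionalSchauderBasis ℕ ℝ X) (n : ℕ → ℕ) (F : ℕ → Set (ℕ → ℝ)) : Prop :=
  ∀ (a : ℕ → ℝ) (N : ℕ) (C : ℝ), ‖∑ m ∈ Finset.range (Bk n N), a m • b m‖ ≤ C ↔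
    bmax n a N ≤ C ∧ ∀ k < N, ∀ w ∈ F k,
      ∑ i ∈ Finset.range (n k), |ps w i| * |a (Bk n k + 1 + i)| ≤ C

/-- all the weights in `F` are alternating -/
def AltF (n : ℕ → ℕ) (F : ℕ → Set (ℕ → ℝ)) : Prop := ∀ k, ∀ w ∈ F k, Alt (n k) w

/-- the functional with the weights `w` at the positions of the block `k` and with total mass
zero; the rest of the mass is at the position `r` -/
def wv (n : ℕ → ℕ) (k : ℕ) (w τ : ℕ → ℝ) (r : ℕ) : ℝ :=
  ∑ i ∈ Finset.range (n k), w i * (τ r - τ (Bk n k + 1 + i))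

/-- the functionals with the weights in `F` are bounded by `C` -/
def WBound (n : ℕ → ℕ) (F : ℕ → Set (ℕ → ℝ)) (τ : ℕ → ℝ) (C : ℝ) : Prop :=
  ∀ k, ∀ w ∈ F k, ∀ r, Bk n (k + 1) ≤ r → |wv n k w τ r| ≤ C

/-- the offset in the block `k` of the image under `ρ` of the position with the offset `i` -/
def off (n : ℕ → ℕ) (k : ℕ) (ρ : Equiv.Perm ℕ) (i : ℕ) : ℕ := ρ (Bk n k + 1 + i) - (Bk n k + 1)

/-- `ρ` preserves the blocks and permutes the weights in `F` -/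
def FPerm (n : ℕ → ℕ) (F : ℕ → Set (ℕ → ℝ)) (ρ : Equiv.Perm ℕ) : Prop :=
  BlockPerm n ρ ∧ ∀ k, ∀ w ∈ F k, ∃ w' ∈ F k, ∀ i < n k, w' (off n k ρ i) = w i

/-! ## the weights -/

/-- the constant `A = (2 m + 2) ^ 2` -/
def AA (m : ℕ) : ℝ := (2 * m + 2) ^ 2

/-- the weights before the normalisation: `A - 1 - i` at the even offsets `i` and
`-(A + 2 ρ(t) + 1)` at the odd offsets `2 t + 1` -/
def wt (m : ℕ) (ρ : Equiv.Perm (Fin m)) (i : ℕ) : ℝ :=
  if i % 2 = 0 then AA m - 1 - i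
  else if h : i / 2 < m then -(AA m + 2 * ((ρ ⟨i / 2, h⟩ : Fin m) : ℕ) + 1) else 0

/-- the sum of the weights at the even offsets -/
def WW (m : ℕ) : ℝ := ∑ t ∈ Finset.range (m + 1), (AA m - 1 - 2 * t)

/-- the normalised weights -/
noncomputable def wn (m : ℕ) (ρ : Equiv.Perm (Fin m)) (i : ℕ) : ℝ := wt m ρ i / (WW m - 1)

/-- the block `k` has `2 * m k + 2` positions -/
def nn (m : ℕ → ℕ) (k : ℕ) : ℕ := 2 * m k + 1

/-- the weights given by the groups `H k` -/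
def FF (m : ℕ → ℕ) (H : ∀ k, Subgroup (Equiv.Perm (Fin (m k)))) (k : ℕ) : Set (ℕ → ℝ) :=
  {w | 1 ≤ m k ∧ ∃ ρ ∈ H k, w = wn (m k) ρ}

/-- the isometry group of `E` is isomorphic to `{±1} × ∏_k H k`, where `H k` acts by permuting the
vectors `dl e (Bk (nn m) k + 2 + 2 i)`, `i < m k`, and the other vectors `dl e p` are fixed up to
the sign -/
def IsomGroupEqH (e : ℕ → E) (m : ℕ → ℕ) (H : ∀ k, Subgroup (Equiv.Perm (Fin (m k)))) : Prop :=
  ∃ Φ : ℤˣ × (∀ k, H k) ≃* (E ≃ₗᵢ[ℝ] E), ∀ (s : ℤˣ) (π : ∀ k, H k),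
    (∀ k (i : Fin (m k)), Φ (s, π) (dl e (Bk (nn m) k + 2 + 2 * i)) =
      ((s : ℤ) : ℝ) •
        dl e (Bk (nn m) k + 2 + 2 * (((π k : Equiv.Perm (Fin (m k))) i : Fin (m k)) : ℕ))) ∧
    ∀ p, (∀ k (i : Fin (m k)), p ≠ Bk (nn m) k + 2 + 2 * i) →
      Φ (s, π) (dl e p) = ((s : ℤ) : ℝ) • dl e p

end FG

end Pool.Agent.Work.MP_8db9c5_an
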