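import Pool.Agent.Work.MP_8db9c5_an.FG.Stmts

/-!
# Item CAY: every sequence of finite groups is given by permutation groups
-/

set_option autoImplicit false

namespace Pool.Agent.Work.MP_8db9c5_an.FG

namespace XCAY

/-- the permutation representation of a finite group -/
noncomputable def rep (G : Type) [Group G] [Finite G] : G →* Equiv.Perm (Fin (Nat.card G)) :=
  (Equiv.permCongrHom (Finite.equivFin G)).toMonoidHom.comp (MulAction.toPermHom G G)

theorem rep_injective (G : Type) [Group G] [Finite G] : Function.Injective (rep G) := by
  intro a b h
  have h1 : MulAction.toPermHom G G a = MulAction.toPermHom G G b :=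
    (Equiv.permCongrHom (Finite.equivFin G)).injective h
  exact MulAction.toPerm_injective h1

end XCAY

theorem pr_CAY : CAY := by
  intro G _ _
  refine ⟨fun k => Nat.card (G k), fun k => (XCAY.rep (G k)).range, ⟨?_⟩⟩
  exact MulEquiv.piCongrRight fun k => MonoidHom.ofInjective (XCAY.rep_injective (G k))

end Pool.Agent.Work.MP_8db9c5_an.FG
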