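import Pool.Agent.Work.MP_8db9c5_an.FG.Defs

/-!
# Products of permutation groups: the statements of the steps
-/

set_option linter.unusedSectionVars false

open Topology Filter Set

universe u v

namespace Pool.Agent.Work.MP_8db9c5_an.FG

/-! ## alternating weights -/

/-- simple consequences of `Alt` -/
def ALT : Prop := ∀ (L : ℕ) (w : ℕ → ℝ), Alt L w →
  (∀ i < L, |ps w i| ≤ 1) ∧ ∑ i ∈ Finset.range L, |ps w i| ≤ 2 ∧
    ∑ i ∈ Finset.range L, ps w i ^ 2 ≤ 1 ∧ (∀ i < L, |w i| ≤ 1) ∧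
      |∑ i ∈ Finset.range L, w i| ≤ 1

/-- the main inequality -/
def KEY : Prop := ∀ (L : ℕ) (w a : ℕ → ℝ) (C : ℝ), Alt L w → 0 ≤ C → (∀ i < L, |a i| ≤ C) →
  ((∀ i < L, a i ≠ 0) → (∀ i, i + 1 < L → |a i + a (i + 1)| ≤ C) ∧
    |∑ i ∈ Finset.range L, ps w i * a i| ≤ C) →
  ∑ i ∈ Finset.range L, |ps w i| * |a i| ≤ C

/-- summation by parts -/
def ABL : Prop := ∀ (L : ℕ) (w x : ℕ → ℝ), ∑ i ∈ Finset.range L, ps w i * (x (i + 1) - x i) =
  ∑ i ∈ Finset.range L, w i * (x L - x i)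

/-- the concrete weights are alternating -/
def WTA : Prop := ∀ (m : ℕ) (ρ : Equiv.Perm (Fin m)), 1 ≤ m → Alt (2 * m + 1) (wn m ρ)

/-! ## the space -/

/-- renorming by a seminorm -/
def RN : Prop := ∀ (X0 : Type) [NormedAddCommGroup X0] [NormedSpace ℝ X0] [CompleteSpace X0]
  (b0 : UnconditionalSchauderBasis ℕ ℝ X0) (q : Seminorm ℝ X0), (∀ x, q x ≤ 2 * ‖x‖) →
    IsReflexive X0 → ∃ (X : Type) (_ : NormedAddCommGroup X) (_ : NormedSpace ℝ X)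
      (_ : CompleteSpace X) (b : UnconditionalSchauderBasis ℕ ℝ X), IsReflexive X ∧
        ∀ (a : ℕ → ℝ) (N : ℕ), ‖∑ m ∈ Finset.range N, a m • b m‖ =
          max ‖∑ m ∈ Finset.range N, a m • b0 m‖ (q (∑ m ∈ Finset.range N, a m • b0 m))

/-- the seminorm -/
def SPQ : Prop := ∀ (X0 : Type) [NormedAddCommGroup X0] [NormedSpace ℝ X0] [CompleteSpace X0]
  (b0 : UnconditionalSchauderBasis ℕ ℝ X0) (n : ℕ → ℕ) (F : ℕ → Set (ℕ → ℝ)),
    BlockNorm b0 n → AltF n F → ∃ q : Seminorm ℝ X0, (∀ x, q x ≤ 2 * ‖x‖) ∧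
      ∀ (a : ℕ → ℝ) (N : ℕ) (C : ℝ), 0 ≤ C →
        (q (∑ m ∈ Finset.range (Bk n N), a m • b0 m) ≤ C ↔ ∀ k < N, ∀ w ∈ F k,
          ∑ i ∈ Finset.range (n k), |ps w i| * |a (Bk n k + 1 + i)| ≤ C)

/-- existence of the space -/
def SPX : Prop := ∀ (n : ℕ → ℕ) (F : ℕ → Set (ℕ → ℝ)), AltF n F → ∃ (X : Type)
  (_ : NormedAddCommGroup X) (_ : NormedSpace ℝ X) (_ : CompleteSpace X)
  (b : UnconditionalSchauderBasis ℕ ℝ X), IsReflexive X ∧ FNorm b n F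

/-! ## consequences of the norm formula -/

/-- the norm is a lattice norm -/
def LAT : Prop := ∀ (X : Type u) [NormedAddCommGroup X] [NormedSpace ℝ X]
  (b : UnconditionalSchauderBasis ℕ ℝ X) (n : ℕ → ℕ) (F : ℕ → Set (ℕ → ℝ)), FNorm b n F →
    ∀ (a a' : ℕ → ℝ) (N : ℕ), (∀ m < N, |a m| ≤ |a' m|) →
      ‖∑ m ∈ Finset.range N, a m • b m‖ ≤ ‖∑ m ∈ Finset.range N, a' m • b m‖

/-- upper `ℓ_2` estimate -/
def FUP : Prop := ∀ (X : Type u) [NormedAddCommGroup X] [NormedSpace ℝ X]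
  (b : UnconditionalSchauderBasis ℕ ℝ X) (n : ℕ → ℕ) (F : ℕ → Set (ℕ → ℝ)), AltF n F →
    FNorm b n F → ∀ (a : ℕ → ℝ) (N : ℕ), ‖∑ m ∈ Finset.range N, a m • b m‖ ^ 2 ≤
      ∑ m ∈ Finset.range N, a m ^ 2

/-- lower estimates -/
def FLO : Prop := ∀ (X : Type u) [NormedAddCommGroup X] [NormedSpace ℝ X]
  (b : UnconditionalSchauderBasis ℕ ℝ X) (n : ℕ → ℕ) (F : ℕ → Set (ℕ → ℝ)), FNorm b n F →
    ∀ (a : ℕ → ℝ) (N : ℕ),
      (∀ m, m < N → |a m| ≤ ‖∑ m ∈ Finset.range N, a m • b m‖) ∧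
      (∀ K : Finset ℕ, (∀ k ∈ K, Bk n k < N) →
        ∑ k ∈ K, a (Bk n k) ^ 2 ≤ ‖∑ m ∈ Finset.range N, a m • b m‖ ^ 2) ∧
      ∀ k, Bk n (k + 1) ≤ N → ∀ w ∈ F k,
        ∑ i ∈ Finset.range (n k), |ps w i| * |a (Bk n k + 1 + i)| ≤
          ‖∑ m ∈ Finset.range N, a m • b m‖

/-- the basis vectors are normalised and smooth -/
def FSM : Prop := ∀ (X : Type u) [NormedAddCommGroup X] [NormedSpace ℝ X]
  (b : UnconditionalSchauderBasis ℕ ℝ X) (n : ℕ → ℕ) (F : ℕ → Set (ℕ → ℝ)), AltF n F →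
    FNorm b n F → (∀ i, ‖b i‖ = 1) ∧ SmoothAt b

/-! ## the norm of the Jamesification -/

/-- the variation along intervals which start at the first positions of blocks -/
def FLA : Prop := ∀ (X : Type u) [NormedAddCommGroup X] [NormedSpace ℝ X] [CompleteSpace X]
  (b : UnconditionalSchauderBasis ℕ ℝ X) (n : ℕ → ℕ) (F : ℕ → Set (ℕ → ℝ)), FNorm b n F →
    ∀ (E : Type v) [NormedAddCommGroup E] [NormedSpace ℝ E] [CompleteSpace E] (e : ℕ → E),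
      IsJamesification b.basis e → ∀ z : E, BBound n (fun m => t b e m z) ‖z‖

/-- the functionals with the weights in `F` are bounded by the norm -/
def FLB : Prop := ∀ (X : Type u) [NormedAddCommGroup X] [NormedSpace ℝ X] [CompleteSpace X]
  (b : UnconditionalSchauderBasis ℕ ℝ X) (n : ℕ → ℕ) (F : ℕ → Set (ℕ → ℝ)), FNorm b n F →
    ∀ (E : Type v) [NormedAddCommGroup E] [NormedSpace ℝ E] [CompleteSpace E] (e : ℕ → E),
      IsJamesification b.basis e → ∀ z : E, WBound n F (fun m => t b e m z) ‖z‖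

/-- upper bound for the norm -/
def FLU : Prop := ∀ (X : Type u) [NormedAddCommGroup X] [NormedSpace ℝ X] [CompleteSpace X]
  (b : UnconditionalSchauderBasis ℕ ℝ X) (n : ℕ → ℕ) (F : ℕ → Set (ℕ → ℝ)), AltF n F →
    FNorm b n F →
    ∀ (E : Type v) [NormedAddCommGroup E] [NormedSpace ℝ E] [CompleteSpace E] (e : ℕ → E),
      IsJamesification b.basis e → ∀ (z : E) (C : ℝ), 0 ≤ C →
        BBound n (fun m => t b e m z) C → (∀ p q, p < q → |t b e q z - t b e p z| ≤ C) →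
          WBound n F (fun m => t b e m z) C → ‖z‖ ≤ C

/-- the bounds are invariant -/
def WIN : Prop := ∀ (n : ℕ → ℕ) (F : ℕ → Set (ℕ → ℝ)) (τ : ℕ → ℝ) (C : ℝ) (ρ : Equiv.Perm ℕ),
  FPerm n F ρ → WBound n F τ C → WBound n F (fun m => τ (ρ m)) C

/-- the permutations in question do not increase the norm -/
def FNP : Prop := ∀ (X : Type u) [NormedAddCommGroup X] [NormedSpace ℝ X] [CompleteSpace X]
  (b : UnconditionalSchauderBasis ℕ ℝ X) (n : ℕ → ℕ) (F : ℕ → Set (ℕ → ℝ)), AltF n F →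
    FNorm b n F →
    ∀ (E : Type v) [NormedAddCommGroup E] [NormedSpace ℝ E] [CompleteSpace E] (e : ℕ → E),
      IsJamesification b.basis e → ∀ ρ : Equiv.Perm ℕ, FPerm n F ρ →
        ∀ w z : E, (∀ m, t b e m w = t b e (ρ m) z) → ‖w‖ ≤ ‖z‖

/-- the permutations in question give isometries -/
def FEP : Prop := ∀ (X : Type u) [NormedAddCommGroup X] [NormedSpace ℝ X] [CompleteSpace X]
  (b : UnconditionalSchauderBasis ℕ ℝ X) (n : ℕ → ℕ) (F : ℕ → Set (ℕ → ℝ)), AltF n F →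
    FNorm b n F →
    ∀ (E : Type v) [NormedAddCommGroup E] [NormedSpace ℝ E] [CompleteSpace E] (e : ℕ → E),
      IsJamesification b.basis e → ∀ π : Equiv.Perm ℕ, FPerm n F π → FPerm n F π.symm →
        ∃ T : E ≃ₗᵢ[ℝ] E, ∀ m, T (dl e m) = dl e (π m)

/-! ## the isometries permute the blocks -/

/-- lower bounds for the test vectors -/
def FTL : Prop := ∀ (X : Type u) [NormedAddCommGroup X] [NormedSpace ℝ X] [CompleteSpace X]
  (b : UnconditionalSchauderBasis ℕ ℝ X) (n : ℕ → ℕ) (F : ℕ → Set (ℕ → ℝ)), FNorm b n F →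
    ∀ (E : Type v) [NormedAddCommGroup E] [NormedSpace ℝ E] [CompleteSpace E] (e : ℕ → E),
      IsJamesification b.basis e →
        (∀ k, 1 < ‖dl e (Bk n (k + 1))‖) ∧
        (∀ k, 2 < ‖dl e 0 - dl e (Bk n (k + 1))‖) ∧
        ∀ m, m ≠ Bk n (blk n m) → ∀ k, k + 1 ≤ blk n m → 2 < ‖dl e m - dl e (Bk n (k + 1))‖

/-- upper bounds for the test vectors -/
def FTU : Prop := ∀ (X : Type u) [NormedAddCommGroup X] [NormedSpace ℝ X] [CompleteSpace X]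
  (b : UnconditionalSchauderBasis ℕ ℝ X) (n : ℕ → ℕ) (F : ℕ → Set (ℕ → ℝ)), AltF n F →
    FNorm b n F →
    ∀ (E : Type v) [NormedAddCommGroup E] [NormedSpace ℝ E] [CompleteSpace E] (e : ℕ → E),
      IsJamesification b.basis e →
        ‖dl e 0‖ ≤ 1 ∧ (∀ m, m ≠ Bk n (blk n m) → ‖dl e m‖ ≤ 1) ∧
        ∀ m, m ≠ Bk n (blk n m) → ∀ k, blk n m < k → ‖dl e m - dl e (Bk n k)‖ ≤ 2

/-- the order of the first positions of the blocks is preserved -/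
def FOR : Prop := ∀ (X : Type u) [NormedAddCommGroup X] [NormedSpace ℝ X] [CompleteSpace X]
  (b : UnconditionalSchauderBasis ℕ ℝ X) (n : ℕ → ℕ) (F : ℕ → Set (ℕ → ℝ)), AltF n F →
    FNorm b n F →
    ∀ (E : Type v) [NormedAddCommGroup E] [NormedSpace ℝ E] [CompleteSpace E] (e : ℕ → E),
      IsJamesification b.basis e → ∀ (T : E ≃ₗᵢ[ℝ] E) (s : ℝ) (π : Equiv.Perm ℕ),
        (s = 1 ∨ s = -1) → (∀ m, T (dl e m) = s • dl e (π m)) →
          StrictMono fun k => π.symm (Bk n k)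

/-- the structure of the isometries -/
def FEX : Prop := ∀ (X : Type u) [NormedAddCommGroup X] [NormedSpace ℝ X] [CompleteSpace X]
  (b : UnconditionalSchauderBasis ℕ ℝ X) (n : ℕ → ℕ) (F : ℕ → Set (ℕ → ℝ)), IsReflexive X →
    AltF n F → FNorm b n F →
    ∀ (E : Type v) [NormedAddCommGroup E] [NormedSpace ℝ E] [CompleteSpace E] (e : ℕ → E),
      IsJamesification b.basis e → ∀ T : E ≃ₗᵢ[ℝ] E, ∃ (s : ℝ) (π : Equiv.Perm ℕ),
        (s = 1 ∨ s = -1) ∧ BlockPerm n π ∧ ∀ m, T (dl e m) = s • dl e (π m)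

/-! ## the isometries act on the blocks by elements of `H k` -/

/-- the pairing of the weights with the test coefficients: `p` is a permutation of the offsets -/
def PAIR : Prop := ∀ (m : ℕ) (σ : Equiv.Perm (Fin m)) (p : ℕ → ℕ) (ε : ℝ), 1 ≤ m → 0 < ε →
  ε ≤ 1 → Set.BijOn p (Set.Iio (2 * m + 1)) (Set.Iio (2 * m + 1)) →
    (∀ i < 2 * m + 1, wt m σ (p i) = wt m 1 i) ∨
    |∑ i ∈ Finset.range (2 * m + 1), wt m σ (p i) * ((if i % 2 = 0 then 1 else 0) +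
      ε * wt m 1 i)| ≤ WW m + ε * ∑ i ∈ Finset.range (2 * m + 1), wt m 1 i ^ 2 - ε / 2

/-- bounds for the coefficients of the test vector -/
def BDS : Prop := ∀ m : ℕ, 1 ≤ m → 1 < WW m ∧
  (∀ (ρ : Equiv.Perm (Fin m)) (i : ℕ), i < 2 * m + 1 → |wt m ρ i| ≤ WW m) ∧
  ∑ i ∈ Finset.range (2 * m + 1), wt m 1 i * (if i % 2 = 0 then 1 else 0) = WW m

/-- the upper bound for the norm of a vector which lives on one block; `c` are its coefficients -/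
def UPB : Prop := ∀ (n : ℕ → ℕ) (F : ℕ → Set (ℕ → ℝ)), AltF n F → ∀ (τ : ℕ → ℝ) (k : ℕ) (B C : ℝ),
  0 ≤ B → (∀ m, blk n m = k → m ≠ Bk n k → -B ≤ τ m ∧ τ m ≤ 1 + B) →
    (∀ m, (blk n m ≠ k ∨ m = Bk n k) → τ m = 0) → 1 + 2 * B ≤ C →
      (∀ w ∈ F k, |∑ i ∈ Finset.range (n k), w i * τ (Bk n k + 1 + i)| ≤ C) →
        BBound n τ C ∧ (∀ p q, p < q → |τ q - τ p| ≤ C) ∧ WBound n F τ C

/-- the isometries act on the blocks by elements of `H k` -/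
def TST : Prop := ∀ (m : ℕ → ℕ) (H : ∀ k, Subgroup (Equiv.Perm (Fin (m k)))) (X : Type u)
  [NormedAddCommGroup X] [NormedSpace ℝ X] [CompleteSpace X]
  (b : UnconditionalSchauderBasis ℕ ℝ X), FNorm b (nn m) (FF m H) →
    ∀ (E : Type v) [NormedAddCommGroup E] [NormedSpace ℝ E] [CompleteSpace E] (e : ℕ → E),
      IsJamesification b.basis e → ∀ (T : E ≃ₗᵢ[ℝ] E) (s : ℝ) (π : Equiv.Perm ℕ),
        (s = 1 ∨ s = -1) → BlockPerm (nn m) π → (∀ p, T (dl e p) = s • dl e (π p)) →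
          ∀ k, 1 ≤ m k → ∃ σ ∈ H k, ∀ i < nn m k, wt (m k) σ (off (nn m) k π i) = wt (m k) 1 i

/-! ## the group -/

/-- the permutation of the odd offsets -/
def LFT : Prop := ∀ m : ℕ, ∃ P : Equiv.Perm (Fin m) →* Equiv.Perm (Fin (2 * m + 1)),
  Function.Injective P ∧
  (∀ (ρ : Equiv.Perm (Fin m)) (i : Fin m) (j : Fin (2 * m + 1)), (j : ℕ) = 2 * i + 1 →
    ((P ρ j : Fin (2 * m + 1)) : ℕ) = 2 * ((ρ i : Fin m) : ℕ) + 1) ∧
  (∀ (ρ : Equiv.Perm (Fin m)) (j : Fin (2 * m + 1)), (j : ℕ) % 2 = 0 → P ρ j = j) ∧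
  (∀ (ρ σ : Equiv.Perm (Fin m)) (j : Fin (2 * m + 1)),
    wt m σ ((P ρ j : Fin (2 * m + 1)) : ℕ) = wt m (σ * ρ) j) ∧
  ∀ (σ : Equiv.Perm (Fin m)) (i j : Fin (2 * m + 1)), wt m σ i = wt m σ j → i = j

/-- the permutations of the positions given by the groups `H k` -/
def PPH : Prop := ∀ (m : ℕ → ℕ) (H : ∀ k, Subgroup (Equiv.Perm (Fin (m k)))),
  ∃ P : (∀ k, H k) →* Equiv.Perm ℕ, Function.Injective P ∧
    (∀ π, FPerm (nn m) (FF m H) (P π)) ∧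
    (∀ π k (i : Fin (m k)), P π (Bk (nn m) k + 2 + 2 * i) =
      Bk (nn m) k + 2 + 2 * (((π k : Equiv.Perm (Fin (m k))) i : Fin (m k)) : ℕ)) ∧
    (∀ π p, (∀ k (i : Fin (m k)), p ≠ Bk (nn m) k + 2 + 2 * i) → P π p = p) ∧
    ∀ ρ, BlockPerm (nn m) ρ →
      (∀ k, 1 ≤ m k → ∃ σ ∈ H k, ∀ i < nn m k, wt (m k) σ (off (nn m) k ρ i) = wt (m k) 1 i) →
        ∃ π, P π = ρ

/-- the isometry group -/
def FGR : Prop := ∀ (m : ℕ → ℕ) (H : ∀ k, Subgroup (Equiv.Perm (Fin (m k)))) (X : Type u)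
  [NormedAddCommGroup X] [NormedSpace ℝ X] [CompleteSpace X]
  (b : UnconditionalSchauderBasis ℕ ℝ X), IsReflexive X → FNorm b (nn m) (FF m H) →
    ∀ (E : Type v) [NormedAddCommGroup E] [NormedSpace ℝ E] [CompleteSpace E] (e : ℕ → E),
      IsJamesification b.basis e → IsomGroupEqH e m H

/-- every sequence of finite groups is given by permutation groups -/
def CAY : Prop := ∀ (G : ℕ → Type) [∀ k, Group (G k)] [∀ k, Finite (G k)],
  ∃ (m : ℕ → ℕ) (H : ∀ k, Subgroup (Equiv.Perm (Fin (m k)))),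
    Nonempty ((∀ k, G k) ≃* (∀ k, H k))

end Pool.Agent.Work.MP_8db9c5_an.FG
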